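import Mathlib
import Pool.Agent.H.MP_159dfd_an.QG

set_option autoImplicit false

namespace Pool.Agent.Results.MP_c0afcf_an.No

open Set Pool.Agent.H.MP_159dfd_an

theorem result : ∃ (n m : ℕ) (s t : Fin m → Fin n) (L : Fin m → ℝ) (μ : ℝ),
    (∀ e, 0 < L e) ∧ Conn s t univ ∧ IsLeast {ν | 0 < ν ∧ ∃ f, Eig s t L 0 ν f} μ ∧
    (∃ e, (Hot s t L 0 μ e).Infinite) ∧ ∃ e, ∃ x ∈ Icc 0 (L e), x ∉ Hot s t L 0 μ e :=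
  ⟨3, 4, s, t, L, 1, Lpos, conn, sec, ⟨0, inf⟩, 0, 0, left_mem_Icc.2 (Lpos 0).le, cold⟩

end Pool.Agent.Results.MP_c0afcf_an.No
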